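import Pool.Agent.TH282.RE.Final1

/-!
# Rigid maximal Cohen-Macaulay modules of bounded rank, bounded annihilator of `Ext^1(M, -)`
-/

set_option autoImplicit false

namespace Pool.Agent.Results.MP_682396_ag.RigidBoundedAnnihilator

universe u v

/-- Let `R` be a complete Noetherian local domain which is an algebra over a field `k` with residue field finite
over `k`.  For all `N` and `e` there are finitely many modules such that every maximal Cohen-Macaulay
`R`-module `M` of rank at most `N` all of whose self-extensions split and with
`𝔪 ^ e · Ext^1_R(M, -) = 0` (for `r` in `𝔪 ^ e`, the pullback along `r : M → M` of every surjection onto `M`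
splits) is isomorphic to one of them.  There is no hypothesis on the singularities, the dimension or the
characteristic of `R`. -/
theorem result :
    ∀ (k : Type v) [Field k] (R : Type u) [CommRing R] [IsDomain R] [IsNoetherianRing R] [IsLocalRing R]
      [Algebra k R] [Module.Finite k (IsLocalRing.ResidueField R)],
      IsAdicComplete (IsLocalRing.maximalIdeal R) R →
      ∀ N e : ℕ, ∃ S : Set (Σ n : ℕ, Submodule R (Fin n → R)), S.Finite ∧
        ∀ (M : Type u) [AddCommGroup M] [Module R M],
          Module.Finite R M → Nontrivial M →
          (∃ rs : List R, (∀ r ∈ rs, r ∈ IsLocalRing.maximalIdeal R) ∧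
              RingTheory.Sequence.IsWeaklyRegular M rs ∧
              ((rs.length : ℕ∞) : WithBot ℕ∞) = ringKrullDim R) →
          (∀ (E : Type u) [AddCommGroup E] [Module R E] (f : M →ₗ[R] E) (g : E →ₗ[R] M),
              Function.Injective f → Function.Surjective g →
              LinearMap.range f = LinearMap.ker g →
              ∃ s : M →ₗ[R] E, g ∘ₗ s = LinearMap.id) →
          (∀ r ∈ IsLocalRing.maximalIdeal R ^ e,
            ∀ (E : Type u) [AddCommGroup E] [Module R E] (g : E →ₗ[R] M), Function.Surjective g →
              ∃ s : M →ₗ[R] E, g ∘ₗ s = r • LinearMap.id) →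
          Module.finrank R M ≤ N →
          ∃ p ∈ S, Nonempty (M ≃ₗ[R] (Fin p.1 → R) ⧸ p.2) := by
  intro k _ R _ _ _ _ _ _ hc N e
  obtain ⟨S, hS, h⟩ := Pool.Agent.TH282.RE.final_rank k hc N e
  exact ⟨S, hS, fun M _ _ hMf hMn hMcm hMr hMe hMN => h M hMf hMn hMcm hMr hMN hMe⟩

end Pool.Agent.Results.MP_682396_ag.RigidBoundedAnnihilator
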