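import Pool.Agent.TH282.RG.Dom

/-!
# Finitely many rigid maximal Cohen-Macaulay modules of bounded rank in dimension one, equal characteristic
-/

set_option autoImplicit false

namespace Pool.Agent.Results.MP_682396_ag.RigidDimOneEqualChar

universe u v

/-- For every one-dimensional complete Noetherian local domain `R` which is an algebra over a field `k` with
residue field finite over `k`, and every `N`, there are finitely many modules such that every maximal
Cohen-Macaulay `R`-module `M` of rank at most `N` all of whose self-extensions split is isomorphic to one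
of them. -/
theorem result :
    ∀ (k : Type v) [Field k] (R : Type u) [CommRing R] [IsDomain R] [IsNoetherianRing R] [IsLocalRing R]
      [Algebra k R] [Module.Finite k (IsLocalRing.ResidueField R)],
      IsAdicComplete (IsLocalRing.maximalIdeal R) R → ringKrullDim R = 1 →
      ∀ N : ℕ, ∃ S : Set (Σ n : ℕ, Submodule R (Fin n → R)), S.Finite ∧
        ∀ (M : Type u) [AddCommGroup M] [Module R M],
          Module.Finite R M → Nontrivial M →
          (∃ rs : List R, (∀ r ∈ rs, r ∈ IsLocalRing.maximalIdeal R) ∧
              RingTheory.Sequence.IsWeaklyRegular M rs ∧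
              ((rs.length : ℕ∞) : WithBot ℕ∞) = ringKrullDim R) →
          (∀ (E : Type u) [AddCommGroup E] [Module R E] (f : M →ₗ[R] E) (g : E →ₗ[R] M),
              Function.Injective f → Function.Surjective g →
              LinearMap.range f = LinearMap.ker g →
              ∃ s : M →ₗ[R] E, g ∘ₗ s = LinearMap.id) →
          Module.finrank R M ≤ N →
          ∃ p ∈ S, Nonempty (M ≃ₗ[R] (Fin p.1 → R) ⧸ p.2) := by
  intro k _ R _ _ _ _ _ _ hc hdim N
  have hkd : Ring.KrullDimLE 1 R := by
    rw [Ring.krullDimLE_iff, hdim]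
    rfl
  have hnb : IsLocalRing.maximalIdeal R ≠ ⊥ := by
    intro h
    have hf : IsField R := IsLocalRing.isField_iff_maximalIdeal_eq.mpr h
    have := ringKrullDim_eq_zero_of_isField hf
    rw [hdim] at this
    exact one_ne_zero this
  obtain ⟨x, hxm, hx⟩ := Submodule.exists_mem_ne_zero_of_ne_bot hnb
  have hpre : IsPrecomplete (IsLocalRing.maximalIdeal R) R := hc.toIsPrecomplete
  obtain ⟨S, hS, h⟩ := Pool.Agent.TH282.RG.main_dom k hx hxm N
  refine ⟨S, hS, ?_⟩
  intro M _ _ hMf hMn hMcm hMr hMN
  refine h M hMf ?_ hMr hMN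
  obtain ⟨rs, hrm, hreg, hlen⟩ := hMcm
  rw [hdim] at hlen
  have hlen' : rs.length = 1 := by
    have h1 : ((rs.length : ℕ∞) : WithBot ℕ∞) = ((1 : ℕ) : ℕ∞) := hlen
    exact_mod_cast h1
  obtain ⟨w, rfl⟩ := List.length_eq_one_iff.mp hlen'
  have hw : IsSMulRegular M w := by
    rw [RingTheory.Sequence.isWeaklyRegular_singleton_iff] at hreg
    exact hreg
  have hwm : w ∈ IsLocalRing.maximalIdeal R := hrm w (by simp)
  intro z hz m hm
  have hfl := Pool.Agent.TH282.RG.finiteLength_quot (R := R) (J := Ideal.span {z})
    (by rwa [Ne, Ideal.span_singleton_eq_bot])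
  have hart : IsArtinianRing (R ⧸ Ideal.span {z}) := by
    have := (isFiniteLength_iff_isNoetherian_isArtinian.mp hfl).2
    exact isArtinian_of_tower R this
  obtain ⟨n, hn⟩ := IsLocalRing.exists_maximalIdeal_pow_le_of_isArtinianRing_quotient (Ideal.span {z})
  obtain ⟨a, ha⟩ := Ideal.mem_span_singleton'.mp (hn (Ideal.pow_mem_pow hwm n))
  have h2 : w ^ n • m = 0 := by
    rw [← ha, mul_smul, hm, smul_zero]
  have h3 : IsSMulRegular M (w ^ n) := hw.pow n
  exact h3 (by simpa using h2)

end Pool.Agent.Results.MP_682396_ag.RigidDimOneEqualChar
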