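import Pool.Agent.TH282.RP.FinalP

/-!
# Finitely many rigid maximal Cohen-Macaulay modules of bounded rank over isolated singularities, char p
-/

set_option autoImplicit false

namespace Pool.Agent.Results.MP_682396_ag.RigidIsolatedCharP

universe u

/-- For every complete Noetherian local domain `R` of prime characteristic `p` with perfect residue field
whose localizations at the non-maximal primes are regular (an isolated singularity, of any dimension, not assumed graded, Cohen-Macaulay
or a completion of anything), and every `N`, there are finitely many modules such that every maximal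
Cohen-Macaulay `R`-module `M` of rank at most `N` all of whose self-extensions split is isomorphic to one of
them. -/
theorem result :
    ∀ (p : ℕ) [Fact p.Prime] (R : Type u) [CommRing R] [IsDomain R] [IsNoetherianRing R] [IsLocalRing R]
      [CharP R p] [PerfectField (IsLocalRing.ResidueField R)],
      IsAdicComplete (IsLocalRing.maximalIdeal R) R →
      (∀ (P : Ideal R) [P.IsPrime], P ≠ IsLocalRing.maximalIdeal R →
        IsRegularLocalRing (Localization.AtPrime P)) →
      ∀ N : ℕ, ∃ S : Set (Σ n : ℕ, Submodule R (Fin n → R)), S.Finite ∧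
        ∀ (M : Type u) [AddCommGroup M] [Module R M],
          Module.Finite R M → Nontrivial M →
          (∃ rs : List R, (∀ r ∈ rs, r ∈ IsLocalRing.maximalIdeal R) ∧
              RingTheory.Sequence.IsWeaklyRegular M rs ∧
              ((rs.length : ℕ∞) : WithBot ℕ∞) = ringKrullDim R) →
          (∀ (E : Type u) [AddCommGroup E] [Module R E] (f : M →ₗ[R] E) (g : E →ₗ[R] M),
              Function.Injective f → Function.Surjective g →
              LinearMap.range f = LinearMap.ker g →
              ∃ s : M →ₗ[R] E, g ∘ₗ s = LinearMap.id) →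
          Module.finrank R M ≤ N →
          ∃ q ∈ S, Nonempty (M ≃ₗ[R] (Fin q.1 → R) ⧸ q.2) := by
  intro p _ R _ _ _ _ _ _ hc hreg N
  obtain ⟨k, _, _, _, _, hk⟩ := Pool.Agent.TH282.RE.exists_coeff_algebra_p p hc
  obtain ⟨s, -, -, hd⟩ := Pool.Agent.TH282.RE.exists_sop R
  obtain ⟨e, he⟩ := Pool.Agent.TH282.RE.isol_ann_p k p hc s.card hd hreg
  obtain ⟨S, hS, h⟩ := Pool.Agent.TH282.RE.final_rank k hc N e
  refine ⟨S, hS, ?_⟩
  intro M _ _ hMf hMn hMcm hMr hMN
  refine h M hMf hMn hMcm hMr hMN (he M hMf ?_)
  obtain ⟨rs, hrm, hw, hlen⟩ := hMcm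
  refine ⟨rs, ?_, hrm,
    (IsLocalRing.isRegular_iff_isWeaklyRegular_of_subset_maximalIdeal hrm).mpr hw⟩
  rw [hd] at hlen
  exact_mod_cast hlen

end Pool.Agent.Results.MP_682396_ag.RigidIsolatedCharP
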